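import Pool.Agent.PSS.Targets

set_option autoImplicit false

namespace PSS

/-- if the only nonzero coefficient is the first one, there is no zero -/
theorem CHB_first {n : ℕ} {al : ℝ} {g c : Fin (n + 1) → ℝ} (hgp : ∀ i, 0 < g i) (hc : c ≠ 0)
    (h : ∀ i : Fin n, c i.succ = 0) {s : ℝ} (hs : 0 < s) :
    ∑ i, c i * (s + g i) ^ al ≠ 0 := by
  rw [Fin.sum_univ_succ]
  have h1 : ∑ i : Fin n, c i.succ * (s + g i.succ) ^ al = 0 :=
    Finset.sum_eq_zero (fun i _ => by rw [h i, zero_mul])
  rw [h1, add_zero]
  have h2 : c 0 ≠ 0 := by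
    intro h0
    apply hc
    funext i
    refine Fin.cases h0 (fun j => h j) i
  have h3 : 0 < (s + g 0) ^ al := Real.rpow_pos_of_pos (by linarith [hgp 0]) _
  exact mul_ne_zero h2 h3.ne'

theorem CHB_deriv (al a b t : ℝ) (ha : 0 < a) (hb : 0 < b) (ht : 0 < t) :
    HasDerivAt (fun s : ℝ => ((s + a) / (s + b)) ^ al)
      ((t + b) ^ (-al - 1) * (al * (b - a) * (t + a) ^ (al - 1))) t := by
  have hta : 0 < t + a := by linarith
  have htb : 0 < t + b := by linarith
  have h1 : HasDerivAt (fun s : ℝ => (s + a) / (s + b))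
      ((1 * (t + b) - (t + a) * 1) / (t + b) ^ 2) t :=
    ((hasDerivAt_id t).add_const a).div ((hasDerivAt_id t).add_const b) htb.ne'
  have h2 := h1.rpow_const (p := al) (Or.inl (div_pos hta htb).ne')
  refine h2.congr_deriv ?_
  have h3 : (t + b) ^ (-al - 1) = ((t + b) ^ (al - 1))⁻¹ * ((t + b) ^ 2)⁻¹ := by
    rw [show (t + b) ^ 2 = (t + b) ^ (2 : ℝ) from (Real.rpow_two _).symm,
      ← Real.rpow_neg htb.le, ← Real.rpow_neg htb.le, ← Real.rpow_add htb]
    congr 1
    ring
  rw [Real.div_rpow hta.le htb.le, h3]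
  have h4 : 0 < (t + b) ^ (al - 1) := Real.rpow_pos_of_pos htb _
  field_simp
  ring

theorem p_CHB (hROL : T_ROL) : T_CHB := by
  intro n
  induction n with
  | zero =>
    intro al _ g c _ hgp hc S hS
    have hE : S = ∅ := by
      rw [Finset.eq_empty_iff_forall_notMem]
      intro s hs
      exact CHB_first hgp hc (fun i => i.elim0) (hS s hs).1 (hS s hs).2
    rw [hE]
    simp
  | succ n ih =>
    intro al hal g c hg hgp hc S hS
    by_cases hz : ∀ i : Fin (n + 1), c i.succ = 0
    · have hE : S = ∅ := by
        rw [Finset.eq_empty_iff_forall_notMem]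
        intro s hs
        exact CHB_first hgp hc hz (hS s hs).1 (hS s hs).2
      rw [hE]
      simp
    push Not at hz
    obtain ⟨k, hk⟩ := hz
    -- the quotient function
    have hcont : ContinuousOn (fun s : ℝ => ∑ i, c i * ((s + g i) / (s + g 0)) ^ al)
        (Set.Ici 0) := by
      refine continuousOn_finsetSum _ (fun i _ => continuousOn_const.mul ?_)
      refine ContinuousOn.rpow_const ?_ ?_
      · refine ContinuousOn.div (by fun_prop) (by fun_prop) ?_
        intro s hs
        have h1 : 0 ≤ s := hs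
        have h2 := hgp 0
        linarith
      · intro s hs
        have h1 : 0 ≤ s := hs
        have h2 := hgp 0
        have h3 := hgp i
        exact Or.inl (div_pos (by linarith) (by linarith)).ne'
    have hder : ∀ t : ℝ, 0 < t → HasDerivAt
        (fun s : ℝ => ∑ i, c i * ((s + g i) / (s + g 0)) ^ al)
        (∑ i, c i * ((t + g 0) ^ (-al - 1) * (al * (g 0 - g i) * (t + g i) ^ (al - 1)))) t := by
      intro t ht
      exact HasDerivAt.fun_sum (fun i _ =>
        (CHB_deriv al (g i) (g 0) t (hgp i) (hgp 0) ht).const_mul (c i))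
    obtain ⟨S', hcard, hS'⟩ := hROL _ _ hcont hder S (by
      intro s hs
      obtain ⟨h0, h1⟩ := hS s hs
      refine ⟨h0.le, ?_⟩
      have h2 := hgp 0
      have h3 : ∀ i, c i * ((s + g i) / (s + g 0)) ^ al =
          c i * (s + g i) ^ al * ((s + g 0) ^ al)⁻¹ := by
        intro i
        have h4 := hgp i
        rw [Real.div_rpow (by linarith) (by linarith)]
        ring
      simp only [h3]
      rw [← Finset.sum_mul, h1, zero_mul])
    have hc' : (fun i : Fin (n + 1) => c i.succ * (al * (g 0 - g i.succ))) ≠ 0 := by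
      intro h
      have h1 := congrFun h k
      have h2 : g 0 - g k.succ ≠ 0 := by
        intro h3
        have h4 := hg (sub_eq_zero.1 h3)
        exact absurd h4 (Fin.succ_ne_zero k).symm
      exact mul_ne_zero hk (mul_ne_zero hal.ne h2) h1
    have hle := ih (al - 1) (by linarith) (fun i => g i.succ)
      (fun i => c i.succ * (al * (g 0 - g i.succ)))
      (fun i j h => Fin.succ_injective _ (hg h)) (fun i => hgp _) hc' S' (by
        intro s hs
        obtain ⟨h0, h1⟩ := hS' s hs
        refine ⟨h0, ?_⟩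
        have h2 : 0 < (s + g 0) ^ (-al - 1) :=
          Real.rpow_pos_of_pos (by linarith [hgp 0]) _
        rw [Fin.sum_univ_succ] at h1
        have h3 : ∑ i : Fin (n + 1), c i.succ * ((s + g 0) ^ (-al - 1) *
            (al * (g 0 - g i.succ) * (s + g i.succ) ^ (al - 1))) =
            (s + g 0) ^ (-al - 1) * ∑ i : Fin (n + 1), c i.succ * (al * (g 0 - g i.succ)) *
              (s + g i.succ) ^ (al - 1) := by
          rw [Finset.mul_sum]
          refine Finset.sum_congr rfl (fun i _ => ?_)
          ring
        rw [h3, sub_self, mul_zero, zero_mul, mul_zero, mul_zero, zero_add] at h1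
        rcases mul_eq_zero.1 h1 with h4 | h4
        · exact absurd h4 h2.ne'
        · exact h4)
    omega

end PSS
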