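import Pool.Agent.PSS.Targets

/-!
# PSS-CLQ (helper78): cliques of squares modulo p when 2 is a non-residue
-/

set_option autoImplicit false

namespace PSS

namespace CLQ_

open Finset

variable {p : ℕ} [Fact p.Prime]

theorem ring_char (hp : p ≠ 2) : ringChar (ZMod p) ≠ 2 := by
  rw [ZMod.ringChar_zmod_n]
  exact hp

/-- off-diagonal correlation -/
theorem corr (hp : p ≠ 2) {s t : ZMod p} (hst : s ≠ t) :
    ∑ x : ZMod p, quadraticChar (ZMod p) (x + s) * quadraticChar (ZMod p) (x + t) = -1 := by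
  set χ := quadraticChar (ZMod p) with hχ
  have hne : χ ≠ 1 := quadraticChar_ne_one (ring_char hp)
  have hinv : χ⁻¹ = χ := (quadraticChar_isQuadratic (ZMod p)).inv
  have hJ : jacobiSum χ χ = -χ (-1) := by
    have := jacobiSum_nontrivial_inv (χ := χ) hne
    rwa [hinv] at this
  have hh : t - s ≠ 0 := sub_ne_zero.2 (Ne.symm hst)
  have h1 : ∑ x : ZMod p, χ (x + s) * χ (x + t) =
      ∑ y : ZMod p, χ (-1) * (χ y * χ (1 - y)) := by
    refine (Fintype.sum_bijective (fun y : ZMod p => -(t - s) * y - s) ?_ _ _ ?_).symm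
    · refine ⟨?_, ?_⟩
      · intro a b hab
        have h2 : -(t - s) * a = -(t - s) * b := by
          have := hab
          simp only at this
          linear_combination this
        exact mul_left_cancel₀ (neg_ne_zero.2 hh) h2
      · intro x
        refine ⟨-(x + s) / (t - s), ?_⟩
        field_simp
        ring
    · intro y
      have h3 : -(t - s) * y - s + s = (-1) * ((t - s) * y) := by ring
      have h4 : -(t - s) * y - s + t = (t - s) * (1 - y) := by ring
      have h5 : χ (t - s) * χ (t - s) = 1 := by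
        rw [← map_mul, ← sq, map_pow]
        exact quadraticChar_sq_one hh
      rw [h3, h4, map_mul, map_mul, map_mul]
      linear_combination (-(χ (-1) * χ y * χ (1 - y))) * h5
  rw [h1, ← Finset.mul_sum]
  have h2 : ∑ y : ZMod p, χ y * χ (1 - y) = jacobiSum χ χ := rfl
  rw [h2, hJ]
  have h3 : χ (-1) * χ (-1) = 1 := by
    rw [← sq]
    exact quadraticChar_sq_one (neg_ne_zero.2 one_ne_zero)
  linear_combination -h3

/-- diagonal -/
theorem diag (s : ZMod p) :
    ∑ x : ZMod p, quadraticChar (ZMod p) (x + s) * quadraticChar (ZMod p) (x + s) =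
      (p : ℤ) - 1 := by
  classical
  have h1 : ∀ x : ZMod p, quadraticChar (ZMod p) (x + s) * quadraticChar (ZMod p) (x + s) =
      1 - if x = -s then 1 else 0 := by
    intro x
    by_cases hx : x = -s
    · subst hx
      simp
    · have : x + s ≠ 0 := fun h => hx (eq_neg_of_add_eq_zero_left h)
      rw [if_neg hx, ← sq, quadraticChar_sq_one this]
      norm_num
  rw [Finset.sum_congr rfl fun x _ => h1 x, Finset.sum_sub_distrib]
  simp [ZMod.card]

theorem total (hp : p ≠ 2) (S : Finset (ZMod p)) :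
    ∑ x : ZMod p, (∑ s ∈ S, quadraticChar (ZMod p) (x + s)) ^ 2 =
      (S.card : ℤ) * ((p : ℤ) - S.card) := by
  classical
  have h1 : ∀ x : ZMod p, (∑ s ∈ S, quadraticChar (ZMod p) (x + s)) ^ 2 =
      ∑ s ∈ S, ∑ t ∈ S, quadraticChar (ZMod p) (x + s) * quadraticChar (ZMod p) (x + t) := by
    intro x
    rw [sq, Finset.sum_mul_sum]
  rw [Finset.sum_congr rfl fun x _ => h1 x, Finset.sum_comm]
  have h2 : ∀ s ∈ S, ∑ x : ZMod p, ∑ t ∈ S,
      quadraticChar (ZMod p) (x + s) * quadraticChar (ZMod p) (x + t) = (p : ℤ) - S.card := by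
    intro s hs
    rw [Finset.sum_comm]
    have h3 : ∀ t ∈ S, ∑ x : ZMod p,
        quadraticChar (ZMod p) (x + s) * quadraticChar (ZMod p) (x + t) =
        -1 + if s = t then (p : ℤ) else 0 := by
      intro t _
      by_cases h : s = t
      · subst h
        rw [diag, if_pos rfl]
        ring
      · rw [corr hp h, if_neg h]
        ring
    rw [Finset.sum_congr rfl h3, Finset.sum_add_distrib, Finset.sum_ite_eq, if_pos hs]
    simp
    ring
  rw [Finset.sum_congr rfl h2, Finset.sum_const, nsmul_eq_mul]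

/-- the inner sum at a point of the set -/
theorem inner (h2 : ¬ IsSquare (2 : ZMod p)) (S : Finset (ZMod p))
    (hS : ∀ s ∈ S, s ≠ 0 ∧ IsSquare s)
    (hS2 : ∀ s ∈ S, ∀ t ∈ S, s ≠ t → IsSquare (s + t)) {x : ZMod p} (hx : x ∈ S) :
    (S.card : ℤ) - 3 ≤ ∑ s ∈ S, quadraticChar (ZMod p) (x + s) := by
  classical
  have h3 : ∀ t ∈ S, (1 : ℤ) - (if t = x then 2 else 0) - (if t = -x then 1 else 0) ≤
      quadraticChar (ZMod p) (x + t) := by
    intro t ht
    by_cases htx : t = x
    · subst htx
      have h4 : t + t = 2 * t := by ring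
      have h20 : (2 : ZMod p) ≠ 0 := by
        intro h
        apply h2
        rw [h]
        exact ⟨0, by simp⟩
      have h5 : quadraticChar (ZMod p) (t + t) = -1 := by
        rw [h4, map_mul, (quadraticChar_one_iff_isSquare (hS t ht).1).2 (hS t ht).2, mul_one]
        exact quadraticChar_neg_one_iff_not_isSquare.2 h2
      rw [h5, if_pos rfl]
      split_ifs <;> norm_num
    · rw [if_neg htx]
      by_cases htn : t = -x
      · rw [if_pos htn, htn]
        simp
      · rw [if_neg htn]
        have h4 : x + t ≠ 0 := fun h => htn (eq_neg_of_add_eq_zero_right h)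
        rw [(quadraticChar_one_iff_isSquare h4).2 (hS2 x hx t ht (Ne.symm htx))]
        norm_num
  refine le_trans ?_ (Finset.sum_le_sum h3)
  rw [Finset.sum_sub_distrib, Finset.sum_sub_distrib, Finset.sum_ite_eq', if_pos hx,
    Finset.sum_ite_eq']
  simp only [Finset.sum_const, nsmul_eq_mul, mul_one]
  split_ifs <;> linarith

end CLQ_

theorem p_CLQ : T_CLQ := by
  classical
  intro p _ hp h2 S hS hS2 hn
  have h1 := CLQ_.total hp S
  have h3 : (S.card : ℤ) * ((S.card : ℤ) - 3) ^ 2 ≤
      ∑ x : ZMod p, (∑ s ∈ S, quadraticChar (ZMod p) (x + s)) ^ 2 := by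
    have h4 : ∑ x ∈ S, ((S.card : ℤ) - 3) ^ 2 ≤
        ∑ x ∈ S, (∑ s ∈ S, quadraticChar (ZMod p) (x + s)) ^ 2 := by
      refine Finset.sum_le_sum fun x hx => ?_
      have h5 := CLQ_.inner h2 S hS hS2 hx
      have h6 : (0 : ℤ) ≤ (S.card : ℤ) - 3 := by
        have : (3 : ℤ) ≤ S.card := by exact_mod_cast hn
        linarith
      exact pow_le_pow_left₀ h6 h5 2
    rw [Finset.sum_const, nsmul_eq_mul] at h4
    refine h4.trans ?_
    exact Finset.sum_le_sum_of_subset_of_nonneg (Finset.subset_univ _)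
      fun x _ _ => sq_nonneg _
  rw [h1] at h3
  have h0 : (0 : ℤ) < S.card := by
    have : (3 : ℤ) ≤ S.card := by exact_mod_cast hn
    linarith
  have h7 := le_of_mul_le_mul_left h3 h0
  have h8 : ((S.card - 3 : ℕ) : ℤ) = (S.card : ℤ) - 3 := by
    rw [Nat.cast_sub hn]
    norm_num
  have h9 : ((S.card + (S.card - 3) ^ 2 : ℕ) : ℤ) ≤ (p : ℤ) := by
    rw [Nat.cast_add, Nat.cast_pow, h8]
    linarith
  exact_mod_cast h9

end PSS
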