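import Pool.Agent.PSS.Targets

/-!
# PSS: block DET, the determinant is small (MP_a81a37_nt), helper68
-/

set_option autoImplicit false

namespace PSS

namespace DET_

/-- exponent of the power of `l` in a row of type `o` -/
def ex (r : ℕ) (o : Option (Fin r)) : ℕ := o.elim r (fun m => (m : ℕ))

theorem ex_le (r : ℕ) (o : Option (Fin r)) : ex r o ≤ r := by
  cases o with
  | none => exact le_refl r
  | some m => exact m.2.le

theorem sum_ex (r : ℕ) (φ : Fin r → Option (Fin r))
    (hinj : ∀ i i' m, φ i = some m → φ i' = some m → i = i') :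
    r * (r - 1) / 2 ≤ ∑ i, ex r (φ i) := by
  classical
  set S : Finset (Fin r) := Finset.univ.filter (fun i => φ i ≠ none) with hS
  set W : Finset (Option (Fin r)) := S.image φ with hW
  have hio : Set.InjOn φ S := by
    intro i hi i' hi' h
    have h1 : φ i ≠ none := by
      have := Finset.mem_coe.1 hi
      rw [hS, Finset.mem_filter] at this
      exact this.2
    obtain ⟨m, hm⟩ := Option.ne_none_iff_exists'.1 h1
    exact hinj i i' m hm (h ▸ hm)
  have hWc : W.card = S.card := Finset.card_image_of_injOn hio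
  have h1 : ∑ o ∈ W, ex r o = ∑ i ∈ S, ex r (φ i) := Finset.sum_image hio
  have h2 : ∑ o : Option (Fin r), ex r o = r + ∑ m : Fin r, (m : ℕ) := by
    rw [Fintype.sum_option]
    rfl
  have h3 : ∑ m : Fin r, (m : ℕ) = r * (r - 1) / 2 := by
    rw [Fin.sum_univ_eq_sum_range (fun k => k) r, Finset.sum_range_id]
  have h4 : ∑ o : Option (Fin r), ex r o = ∑ o ∈ W, ex r o + ∑ o ∈ Wᶜ, ex r o :=
    (Finset.sum_add_sum_compl W _).symm
  have h5 : ∑ o ∈ Wᶜ, ex r o ≤ Wᶜ.card * r := by
    rw [← smul_eq_mul]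
    exact Finset.sum_le_card_nsmul _ _ _ (fun o _ => ex_le r o)
  have h6 : ∑ i, ex r (φ i) = ∑ i ∈ S, ex r (φ i) + ∑ i ∈ Sᶜ, ex r (φ i) :=
    (Finset.sum_add_sum_compl S _).symm
  have h7 : ∑ i ∈ Sᶜ, ex r (φ i) = Sᶜ.card * r := by
    rw [← smul_eq_mul, ← Finset.sum_const]
    refine Finset.sum_congr rfl (fun i hi => ?_)
    have : φ i = none := by
      rw [hS, Finset.mem_compl, Finset.mem_filter] at hi
      by_contra hne
      exact hi ⟨Finset.mem_univ _, hne⟩
    rw [this]
    rfl
  have h8 : Wᶜ.card + W.card = r + 1 := by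
    rw [Finset.card_compl_add_card, Fintype.card_option, Fintype.card_fin]
  have h9 : Sᶜ.card + S.card = r := by
    rw [Finset.card_compl_add_card, Fintype.card_fin]
  have h10 : Wᶜ.card = Sᶜ.card + 1 := by omega
  rw [h10, add_mul, one_mul] at h5
  omega

/-- Leibniz bound with bounds for the rows -/
theorem det_le_rows {r : ℕ} (A : Matrix (Fin r) (Fin r) ℝ) (b : Fin r → ℝ)
    (hA : ∀ i j, |A i j| ≤ b i) : |A.det| ≤ (r.factorial : ℝ) * ∏ i, b i := by
  classical
  rw [Matrix.det_apply]
  refine (Finset.abs_sum_le_sum_abs _ _).trans ?_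
  have h1 : ∀ σ ∈ (Finset.univ : Finset (Equiv.Perm (Fin r))),
      |Equiv.Perm.sign σ • ∏ i, A (σ i) i| ≤ ∏ i, b i := by
    intro σ _
    have h2 : |Equiv.Perm.sign σ • ∏ i, A (σ i) i| = |∏ i, A (σ i) i| := by
      rcases Int.units_eq_one_or (Equiv.Perm.sign σ) with h | h
      · rw [h, one_smul]
      · rw [h, Units.neg_smul, one_smul, abs_neg]
    rw [h2, Finset.abs_prod, ← Equiv.prod_comp σ b]
    exact Finset.prod_le_prod (fun i _ => abs_nonneg _) (fun i _ => hA (σ i) i)
  refine (Finset.sum_le_card_nsmul _ _ _ h1).trans ?_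
  rw [Finset.card_univ, Fintype.card_perm, Fintype.card_fin, nsmul_eq_mul]

/-- the rows -/
noncomputable def row (r : ℕ) (q : Fin r → ℝ) (l : ℝ) (x t : Fin r → ℝ)
    (i : Fin r) (o : Option (Fin r)) : Fin r → ℝ := fun j =>
  match o with
  | some m => q m * (l * x i * t j) ^ (m : ℕ)
  | none => hh (l * x i * t j) - ∑ m : Fin r, q m * (l * x i * t j) ^ (m : ℕ)

theorem row_sum (r : ℕ) (q : Fin r → ℝ) (l : ℝ) (x t : Fin r → ℝ) (i : Fin r) :
    ∑ o : Option (Fin r), row r q l x t i o = fun j => hh (l * x i * t j) := by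
  funext j
  rw [Finset.sum_apply, Fintype.sum_option]
  simp only [row]
  ring

theorem det_zero (r : ℕ) (q : Fin r → ℝ) (l : ℝ) (x t : Fin r → ℝ)
    (φ : Fin r → Option (Fin r)) (i i' : Fin r) (m : Fin r) (hne : i ≠ i')
    (hi : φ i = some m) (hi' : φ i' = some m) :
    Matrix.det (Matrix.of fun a => row r q l x t a (φ a)) = 0 := by
  classical
  -- pull out scalars
  set s : Fin r → ℝ := fun a => match φ a with
    | some k => x a ^ (k : ℕ)
    | none => 1 with hs
  set w : Matrix (Fin r) (Fin r) ℝ := fun a j => match φ a with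
    | some k => q k * l ^ (k : ℕ) * t j ^ (k : ℕ)
    | none => row r q l x t a none j with hw
  have h1 : (Matrix.of fun a => row r q l x t a (φ a)) = Matrix.of fun a j => s a * w a j := by
    ext a j
    simp only [Matrix.of_apply, hs, hw]
    cases h : φ a with
    | none => simp
    | some k =>
      simp only [row]
      rw [mul_pow, mul_pow]
      ring
  rw [h1, Matrix.det_mul_column, Matrix.det_zero_of_row_eq hne, mul_zero]
  funext j
  simp only [hw, hi, hi']

end DET_

open DET_ in
theorem p_DET (hTAY : T_TAY) : T_DET := by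
  classical
  intro r
  obtain ⟨q, C, hC, hq⟩ := hTAY r
  set Q : ℝ := 1 + C + ∑ m, |q m| with hQ
  have hS0 : 0 ≤ ∑ m, |q m| := Finset.sum_nonneg (fun m _ => abs_nonneg _)
  have hQ0 : 0 < Q := by rw [hQ]; linarith
  refine ⟨(Fintype.card (Fin r → Option (Fin r)) : ℝ) * ((r.factorial : ℝ) * Q ^ r), ?_, ?_⟩
  · have h1 : 0 < (Fintype.card (Fin r → Option (Fin r)) : ℝ) := by
      exact_mod_cast Fintype.card_pos
    have h2 : 0 < (r.factorial : ℝ) := by exact_mod_cast r.factorial_pos
    positivity
  intro l x t hl0 hl1 hx ht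
  have hu : ∀ i j, 0 ≤ l * x i * t j ∧ l * x i * t j ≤ l := by
    intro i j
    have h1 := hx i
    have h2 := ht j
    have h3 : 0 ≤ x i * t j := mul_nonneg h1.1 h2.1
    have h4 : x i * t j ≤ 1 := mul_le_one₀ h1.2 h2.1 h2.2
    constructor
    · rw [mul_assoc]
      exact mul_nonneg hl0 h3
    · rw [mul_assoc]
      exact mul_le_of_le_one_right hl0 h4
  -- bound of the entries
  have hrow : ∀ i o j, |row r q l x t i o j| ≤ Q * l ^ ex r o := by
    intro i o j
    obtain ⟨hu0, hul⟩ := hu i j
    cases o with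
    | some m =>
      have h1 : |q m| ≤ Q := by
        have := Finset.single_le_sum (f := fun m => |q m|) (fun m _ => abs_nonneg _)
          (Finset.mem_univ m)
        rw [hQ]
        linarith
      have h2 : (l * x i * t j) ^ (m : ℕ) ≤ l ^ (m : ℕ) := pow_le_pow_left₀ hu0 hul _
      have h3 : |row r q l x t i (some m) j| = |q m| * (l * x i * t j) ^ (m : ℕ) := by
        simp only [row]
        rw [abs_mul, abs_of_nonneg (pow_nonneg hu0 _)]
      rw [h3]
      exact mul_le_mul h1 h2 (pow_nonneg hu0 _) hQ0.le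
    | none =>
      have h1 := hq (l * x i * t j) hu0 (hul.trans hl1)
      have h2 : (l * x i * t j) ^ r ≤ l ^ r := pow_le_pow_left₀ hu0 hul _
      have h3 : C ≤ Q := by rw [hQ]; linarith
      refine (show |row r q l x t i none j| ≤ _ from h1).trans ?_
      exact mul_le_mul h3 h2 (pow_nonneg hu0 _) hQ0.le
  -- expansion
  have hexp : Matrix.det (Matrix.of fun i j => hh (l * x i * t j)) =
      ∑ φ : Fin r → Option (Fin r), Matrix.det (Matrix.of fun a => row r q l x t a (φ a)) := by
    have h1 : (Matrix.of fun i j => hh (l * x i * t j)) =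
        (fun i => ∑ o : Option (Fin r), row r q l x t i o : Matrix (Fin r) (Fin r) ℝ) := by
      ext i j
      rw [row_sum]
      rfl
    rw [h1]
    exact (Matrix.detRowAlternating (n := Fin r) (R := ℝ)).toMultilinearMap.map_sum
      (fun i o => row r q l x t i o)
  rw [hexp]
  refine (Finset.abs_sum_le_sum_abs _ _).trans ?_
  have hterm : ∀ φ ∈ (Finset.univ : Finset (Fin r → Option (Fin r))),
      |Matrix.det (Matrix.of fun a => row r q l x t a (φ a))| ≤
        (r.factorial : ℝ) * Q ^ r * l ^ (r * (r - 1) / 2) := by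
    intro φ _
    by_cases hinj : ∀ i i' m, φ i = some m → φ i' = some m → i = i'
    · have h1 := det_le_rows (Matrix.of fun a => row r q l x t a (φ a))
        (fun i => Q * l ^ ex r (φ i)) (fun i j => hrow i (φ i) j)
      refine h1.trans ?_
      rw [Finset.prod_mul_distrib, Finset.prod_const, Finset.card_univ, Fintype.card_fin,
        Finset.prod_pow_eq_pow_sum, mul_assoc]
      have h2 : l ^ (∑ i, ex r (φ i)) ≤ l ^ (r * (r - 1) / 2) :=
        pow_le_pow_of_le_one hl0 hl1 (sum_ex r φ hinj)
      have h3 : 0 ≤ (r.factorial : ℝ) := Nat.cast_nonneg _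
      exact mul_le_mul_of_nonneg_left
        (mul_le_mul_of_nonneg_left h2 (pow_nonneg hQ0.le _)) h3
    · push Not at hinj
      obtain ⟨i, i', m, hi, hi', hne⟩ := hinj
      rw [det_zero r q l x t φ i i' m hne hi hi', abs_zero]
      positivity
  refine (Finset.sum_le_card_nsmul _ _ _ hterm).trans ?_
  rw [Finset.card_univ, nsmul_eq_mul]
  apply le_of_eq
  ring

end PSS
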