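import Pool.Agent.PSS.Targets

/-!
# PSS: fibres of size at most `T` force a large sum (block FIB)
-/

set_option autoImplicit false

namespace PSS

namespace FIB_

open Finset

theorem cum (A : Finset ℕ) (f : ℕ → ℕ) (T : ℝ)
    (hfib : ∀ v, ((A.filter (fun a => f a = v)).card : ℝ) ≤ T) (v : ℕ) :
    ((A.filter (fun a => f a ≤ v)).card : ℝ) ≤ T * (v + 1) := by
  induction v with
  | zero =>
    have h : A.filter (fun a => f a ≤ 0) = A.filter (fun a => f a = 0) := by
      apply Finset.filter_congr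
      intro a _
      simp
    rw [h]
    simpa using hfib 0
  | succ v ih =>
    have h : A.filter (fun a => f a ≤ v + 1) ⊆
        A.filter (fun a => f a ≤ v) ∪ A.filter (fun a => f a = v + 1) := by
      intro a ha
      simp only [Finset.mem_filter, Finset.mem_union] at ha ⊢
      rcases Nat.lt_or_ge (f a) (v + 1) with h1 | h1
      · left
        exact ⟨ha.1, by omega⟩
      · right
        exact ⟨ha.1, by omega⟩
    have h2 : (A.filter (fun a => f a ≤ v + 1)).card ≤
        (A.filter (fun a => f a ≤ v)).card + (A.filter (fun a => f a = v + 1)).card :=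
      le_trans (Finset.card_le_card h) (Finset.card_union_le _ _)
    have h3 : ((A.filter (fun a => f a ≤ v + 1)).card : ℝ) ≤
        ((A.filter (fun a => f a ≤ v)).card : ℝ) +
          ((A.filter (fun a => f a = v + 1)).card : ℝ) := by exact_mod_cast h2
    have h4 := hfib (v + 1)
    push_cast
    nlinarith

theorem sumid (k T : ℝ) (N : ℕ) :
    ∑ v ∈ range N, (k - T * ((v : ℝ) + 1)) = N * k - T * (N * (N + 1) / 2) := by
  induction N with
  | zero => simp
  | succ N ih =>
    rw [Finset.sum_range_succ, ih]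
    push_cast
    ring

theorem low (A : Finset ℕ) (f : ℕ → ℕ) (T : ℝ)
    (hfib : ∀ v, ((A.filter (fun a => f a = v)).card : ℝ) ≤ T) (N : ℕ) :
    N * (A.card : ℝ) - T * (N * (N + 1) / 2) ≤ ∑ a ∈ A, (f a : ℝ) := by
  rw [← sumid]
  have h1 : ∀ a ∈ A, ((∑ v ∈ range N, if v < f a then (1 : ℝ) else 0)) ≤ (f a : ℝ) := by
    intro a _
    rw [← Finset.sum_filter, Finset.sum_const, nsmul_eq_mul, mul_one]
    have h : (range N).filter (fun v => v < f a) ⊆ range (f a) := by
      intro v hv
      simp only [Finset.mem_filter, Finset.mem_range] at hv ⊢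
      exact hv.2
    have h2 := Finset.card_le_card h
    rw [Finset.card_range] at h2
    exact_mod_cast h2
  have h3 : ∀ v ∈ range N, (A.card : ℝ) - T * ((v : ℝ) + 1) ≤
      ∑ a ∈ A, if v < f a then (1 : ℝ) else 0 := by
    intro v _
    rw [← Finset.sum_filter, Finset.sum_const, nsmul_eq_mul, mul_one]
    have h4 : (A.filter (fun a => f a ≤ v)).card + (A.filter (fun a => v < f a)).card =
        A.card := by
      have h5 := Finset.card_filter_add_card_filter_not (s := A) (fun a => f a ≤ v)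
      have h6 : A.filter (fun a => ¬ f a ≤ v) = A.filter (fun a => v < f a) := by
        apply Finset.filter_congr
        intro a _
        exact not_le
      rw [h6] at h5
      exact h5
    have h7 : ((A.filter (fun a => f a ≤ v)).card : ℝ) +
        ((A.filter (fun a => v < f a)).card : ℝ) = (A.card : ℝ) := by exact_mod_cast h4
    have h8 := cum A f T hfib v
    linarith
  calc ∑ v ∈ range N, ((A.card : ℝ) - T * ((v : ℝ) + 1))
      ≤ ∑ v ∈ range N, ∑ a ∈ A, (if v < f a then (1 : ℝ) else 0) := Finset.sum_le_sum h3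
    _ = ∑ a ∈ A, ∑ v ∈ range N, (if v < f a then (1 : ℝ) else 0) := Finset.sum_comm
    _ ≤ ∑ a ∈ A, (f a : ℝ) := Finset.sum_le_sum h1

end FIB_

theorem p_FIB : T_FIB := by
  intro A f T hT hfib
  have hk : (0 : ℝ) ≤ (A.card : ℝ) := Nat.cast_nonneg _
  obtain ⟨L, hL⟩ : ∃ L : ℝ, L = (A.card : ℝ) / T := ⟨_, rfl⟩
  have hkL : (A.card : ℝ) = T * L := by
    rw [hL]
    field_simp
  have hL0 : 0 ≤ L := by
    rw [hL]
    exact div_nonneg hk hT.le
  have h1 : ((⌊L⌋₊ : ℕ) : ℝ) ≤ L := Nat.floor_le hL0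
  have h2 : L < (⌊L⌋₊ : ℝ) + 1 := Nat.lt_floor_add_one L
  have h := FIB_.low A f T hfib ⌊L⌋₊
  rw [hkL] at h
  rw [hkL]
  have h3 : (T * L) ^ 2 / (2 * T) = T * (L ^ 2 / 2) := by
    field_simp
  rw [h3]
  have h4 : 0 ≤ (L - (⌊L⌋₊ : ℝ)) * ((⌊L⌋₊ : ℝ) + 1 - L) :=
    mul_nonneg (by linarith) (by linarith)
  have h5 : 0 ≤ T * ((L - (⌊L⌋₊ : ℝ)) * ((⌊L⌋₊ : ℝ) + 1 - L)) := mul_nonneg hT.le h4
  nlinarith

end PSS
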