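import Pool.Agent.PSS.Targets

/-!
# PSS, block NZ: the matrix is nonsingular
-/

set_option autoImplicit false

namespace PSS

namespace NZ_

/-- one term of the derivative -/
theorem hasDeriv {x : ℝ} (hx : 0 < x) {s : ℝ} (hs : 0 < s) :
    HasDerivAt (fun s : ℝ => √(1 + x * s) - 1) (√x / 2 * (s + 1 / x) ^ (-(1 / 2) : ℝ)) s := by
  have h1 : HasDerivAt (fun s : ℝ => 1 + x * s) x s := by
    have := ((hasDerivAt_id s).const_mul x).const_add 1
    simpa using this
  have hpos : 0 < 1 + x * s := by positivity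
  have h2 := (h1.sqrt hpos.ne').sub_const 1
  have h3 : 1 + x * s = x * (s + 1 / x) := by
    field_simp
    ring
  have h4 : 0 < s + 1 / x := by positivity
  have e : √x / 2 * (s + 1 / x) ^ (-(1 / 2) : ℝ) = x / (2 * √(1 + x * s)) := by
    rw [h3, Real.sqrt_mul hx.le, Real.rpow_neg h4.le, ← Real.sqrt_eq_rpow]
    have h5 : 0 < √x := Real.sqrt_pos.2 hx
    have h6 : 0 < √(s + 1 / x) := Real.sqrt_pos.2 h4
    have h7 : √x * √x = x := Real.mul_self_sqrt hx.le
    rw [div_mul_eq_mul_div, div_eq_div_iff (by positivity) (by positivity)]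
    have h8 : √x * (√(s + 1 / x))⁻¹ * (2 * (√x * √(s + 1 / x))) =
        2 * (√x * √x) * ((√(s + 1 / x))⁻¹ * √(s + 1 / x)) := by ring
    rw [h8, h7, inv_mul_cancel₀ h6.ne']
    ring
  rw [e]
  exact h2

end NZ_

theorem p_NZ (hR : T_ROL) (hC : T_CHB) : T_NZ := by
  intro r x t hx ht hx0 ht0 hdet
  obtain ⟨c, hc0, hc⟩ := Matrix.exists_vecMul_eq_zero_iff.2 hdet
  have hc' : ∀ j, ∑ i, c i * (√(1 + x i * t j) - 1) = 0 := by
    intro j
    have h := congrFun hc j
    simpa [Matrix.vecMul, dotProduct] using h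
  obtain ⟨n, rfl⟩ : ∃ n, r = n + 1 := by
    rcases r with _ | n
    · exact absurd (Subsingleton.elim c 0) hc0
    · exact ⟨n, rfl⟩
  set f : ℝ → ℝ := fun s => ∑ i, c i * (√(1 + x i * s) - 1) with hf
  set f' : ℝ → ℝ := fun s => ∑ i, (c i * (√(x i) / 2)) * (s + 1 / x i) ^ (-(1 / 2) : ℝ) with hf'
  have hcont : ContinuousOn f (Set.Ici 0) := by
    apply Continuous.continuousOn
    rw [hf]
    fun_prop
  have hder : ∀ s, 0 < s → HasDerivAt f (f' s) s := by
    intro s hs
    have h1 : ∀ i ∈ Finset.univ, HasDerivAt (fun s => c i * (√(1 + x i * s) - 1))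
        (c i * (√(x i) / 2 * (s + 1 / x i) ^ (-(1 / 2) : ℝ))) s := fun i _ =>
      (NZ_.hasDeriv (hx0 i) hs).const_mul (c i)
    have h2 : HasDerivAt f (∑ i, c i * (√(x i) / 2 * (s + 1 / x i) ^ (-(1 / 2) : ℝ))) s :=
      HasDerivAt.fun_sum h1
    have h3 : f' s = ∑ i, c i * (√(x i) / 2 * (s + 1 / x i) ^ (-(1 / 2) : ℝ)) :=
      Finset.sum_congr rfl fun i _ => by ring
    rw [h3]
    exact h2
  classical
  set S : Finset ℝ := insert 0 (Finset.univ.image t) with hS
  have hScard : S.card = n + 2 := by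
    rw [hS, Finset.card_insert_of_notMem, Finset.card_image_of_injective _ ht, Finset.card_univ,
      Fintype.card_fin]
    intro h
    obtain ⟨j, -, hj⟩ := Finset.mem_image.1 h
    exact (ht0 j).ne' hj
  obtain ⟨S', hS'c, hS'⟩ := hR f f' hcont hder S (by
    intro s hs
    rw [hS, Finset.mem_insert] at hs
    rcases hs with rfl | hs
    · refine ⟨le_rfl, ?_⟩
      simp [hf]
    · obtain ⟨j, -, rfl⟩ := Finset.mem_image.1 hs
      exact ⟨(ht0 j).le, hc' j⟩)
  have hle := hC n (-(1 / 2)) (by norm_num) (fun i => 1 / x i) (fun i => c i * (√(x i) / 2))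
    (fun i j hij => hx (by
      have h : 1 / x i = 1 / x j := hij
      rw [one_div, one_div, inv_inj] at h
      exact h))
    (fun i => one_div_pos.2 (hx0 i))
    (fun h => hc0 (by
      funext i
      have h1 := congrFun h i
      have h2 : √(x i) / 2 ≠ 0 := by
        have := Real.sqrt_pos.2 (hx0 i)
        positivity
      exact (mul_eq_zero.1 h1).resolve_right h2)) S' hS'
  omega

end PSS
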