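import Pool.Agent.PSS.Targets

/-!
# PSS: blocks LOG, MXM, ONE (MP_a81a37_nt), helper29
-/

set_option autoImplicit false

namespace PSS

theorem p_LOG : T_LOG := by
  classical
  intro P hP a ha
  have h1 : Real.log (a : ℝ) =
      ∑ p ∈ a.primeFactors, (a.factorization p : ℝ) * Real.log (p : ℝ) := by
    rw [Real.log_nat_eq_sum_factorization]
    rfl
  rw [h1]
  have h2 : ∑ p ∈ P, (padicValNat p a : ℝ) * Real.log (p : ℝ) =
      ∑ p ∈ P ∩ a.primeFactors, (a.factorization p : ℝ) * Real.log (p : ℝ) := by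
    have h3 : ∀ p ∈ P, (padicValNat p a : ℝ) * Real.log (p : ℝ) =
        (a.factorization p : ℝ) * Real.log (p : ℝ) := by
      intro p hp
      rw [Nat.factorization_def a (hP p hp)]
    rw [Finset.sum_congr rfl h3]
    symm
    refine Finset.sum_subset Finset.inter_subset_left ?_
    intro p hp hn
    have h4 : p ∉ a.primeFactors := fun h => hn (Finset.mem_inter.mpr ⟨hp, h⟩)
    have h5 : a.factorization p = 0 := by
      rw [← Finsupp.notMem_support_iff, Nat.support_factorization]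
      exact h4
    rw [h5]
    simp
  rw [h2]
  refine Finset.sum_le_sum_of_subset_of_nonneg Finset.inter_subset_right ?_
  intro p hp _
  have hp1 : (1 : ℝ) ≤ p := by
    have := (Nat.prime_of_mem_primeFactors hp).one_lt
    exact_mod_cast this.le
  exact mul_nonneg (Nat.cast_nonneg _) (Real.log_nonneg hp1)

theorem p_MXM : T_MXM := by
  intro A hA a ha b hb hab
  obtain ⟨z, hz⟩ := hA.2 a ha b hb hab
  have ha0 := hA.1 a ha
  have h1 : b < z := by
    by_contra h
    have h2 : z ≤ b := not_lt.mp h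
    have h3 : z * z ≤ b * b := Nat.mul_le_mul h2 h2
    have h4 : 0 < a ^ 2 := by positivity
    nlinarith
  have h2 : (b + 1) * (b + 1) ≤ z * z := Nat.mul_le_mul h1 h1
  nlinarith

theorem p_ONE (hVAL : T_VAL) (hFIB : T_FIB) (hPRM : T_PRM) : T_ONE := by
  classical
  obtain ⟨X₀, hX₀, hPRM⟩ := hPRM
  set K : ℝ := max 42 (8 * X₀) with hK
  have hK42 : 42 ≤ K := le_max_left _ _
  have hKX : 8 * X₀ ≤ K := le_max_right _ _
  have hl2 : 0 < Real.log 2 := Real.log_pos (by norm_num)
  refine ⟨max 700 (K ^ 2 / Real.log 2), lt_of_lt_of_le (by norm_num) (le_max_left _ _), ?_⟩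
  intro A hA hcard a ha
  set k : ℝ := (A.card : ℝ) with hk
  have hk2 : 2 ≤ k := by rw [hk]; exact_mod_cast hcard
  -- `a ≥ 2`
  have ha2 : 2 ≤ a := by
    obtain ⟨b, hb, hba⟩ := Finset.exists_mem_ne (by omega : 1 < A.card) a
    have h1 := p_MXM A hA a ha b hb (Ne.symm hba)
    have h2 := hA.1 b hb
    by_contra h
    have h3 : a ≤ 1 := by omega
    have h4 : a ^ 2 ≤ 1 ^ 2 := Nat.pow_le_pow_left h3 2
    omega
  have ha2' : (2 : ℝ) ≤ a := by exact_mod_cast ha2
  have hla : Real.log 2 ≤ Real.log (a : ℝ) := Real.log_le_log (by norm_num) ha2'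
  have hla0 : 0 < Real.log (a : ℝ) := lt_of_lt_of_le hl2 hla
  rcases lt_or_ge k K with hlt | hge
  · -- small cardinality
    have h1 : k ^ 2 ≤ K ^ 2 := by nlinarith
    have h2 : K ^ 2 ≤ K ^ 2 / Real.log 2 * Real.log (a : ℝ) := by
      rw [div_mul_eq_mul_div, le_div_iff₀ hl2]
      exact mul_le_mul_of_nonneg_left hla (by positivity)
    have h3 : K ^ 2 / Real.log 2 * Real.log (a : ℝ) ≤
        max 700 (K ^ 2 / Real.log 2) * Real.log (a : ℝ) :=
      mul_le_mul_of_nonneg_right (le_max_right _ _) hla0.le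
    exact h1.trans (h2.trans h3)
  · -- large cardinality
    have hk42 : 42 ≤ k := hK42.trans hge
    set X : ℝ := k ^ 2 / 64 with hX
    have hXX : X₀ ≤ X := by
      have h1 : 8 * X₀ ≤ k := hKX.trans hge
      have h2 : (8 * X₀) ^ 2 ≤ k ^ 2 := by
        have : 0 ≤ 8 * X₀ := by linarith
        nlinarith
      rw [hX]
      nlinarith
    have hP := hPRM X hXX
    set P : Finset ℕ := (Finset.Icc 1 ⌊2 * X⌋₊).filter
      (fun p : ℕ => p.Prime ∧ X < (p : ℝ) ∧ p % 8 = 3) with hPdef
    -- the sum of the valuations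
    have hsum : ∀ p ∈ P, 3 * k / 2 ≤ ∑ b ∈ A, (padicValNat p b : ℝ) := by
      intro p hp
      rw [hPdef, Finset.mem_filter, Finset.mem_Icc] at hp
      obtain ⟨⟨hp1, hp2⟩, hpp, hpX, hp8⟩ := hp
      have hX0 : 0 ≤ 2 * X := by rw [hX]; positivity
      have hp3 : (p : ℝ) ≤ 2 * X := (Nat.le_floor_iff hX0).mp hp2
      have hp4 : √(p : ℝ) ≤ 100 * k / 565 := by
        rw [show (100 * k / 565 : ℝ) = √((100 * k / 565) ^ 2) from
          (Real.sqrt_sq (by positivity)).symm]
        refine Real.sqrt_le_sqrt (hp3.trans ?_)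
        rw [hX]
        nlinarith [sq_nonneg k]
      have hT : √(p : ℝ) + 3 ≤ k / 4 := by linarith
      have hv : ∀ v, ((A.filter (fun b => padicValNat p b = v)).card : ℝ) ≤ k / 4 :=
        fun v => (hVAL A hA p hpp hp8 v).trans hT
      have hf := hFIB A (fun b => padicValNat p b) (k / 4) (by linarith) hv
      have he : (A.card : ℝ) ^ 2 / (2 * (k / 4)) - (A.card : ℝ) / 2 = 3 * k / 2 := by
        rw [← hk]
        have hk0 : k ≠ 0 := by linarith
        field_simp
        ring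
      rw [he] at hf
      exact hf
    have hpr : ∀ p ∈ P, p.Prime := by
      intro p hp
      rw [hPdef, Finset.mem_filter] at hp
      exact hp.2.1
    have hlogp : ∀ p ∈ P, 0 ≤ Real.log (p : ℝ) := by
      intro p hp
      have := (hpr p hp).one_lt
      exact Real.log_nonneg (by exact_mod_cast this.le)
    have h1 : 3 * k / 2 * (X / 8) ≤
        ∑ p ∈ P, (∑ b ∈ A, (padicValNat p b : ℝ)) * Real.log (p : ℝ) := by
      calc 3 * k / 2 * (X / 8) ≤ 3 * k / 2 * ∑ p ∈ P, Real.log (p : ℝ) :=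
            mul_le_mul_of_nonneg_left hP (by linarith)
        _ = ∑ p ∈ P, 3 * k / 2 * Real.log (p : ℝ) := by rw [Finset.mul_sum]
        _ ≤ _ := Finset.sum_le_sum fun p hp =>
            mul_le_mul_of_nonneg_right (hsum p hp) (hlogp p hp)
    have h2 : ∑ p ∈ P, (∑ b ∈ A, (padicValNat p b : ℝ)) * Real.log (p : ℝ) =
        ∑ b ∈ A, ∑ p ∈ P, (padicValNat p b : ℝ) * Real.log (p : ℝ) := by
      rw [Finset.sum_comm]
      refine Finset.sum_congr rfl fun p _ => ?_
      rw [Finset.sum_mul]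
    have h3 : ∀ b ∈ A, ∑ p ∈ P, (padicValNat p b : ℝ) * Real.log (p : ℝ) ≤
        2 * Real.log (a : ℝ) := by
      intro b hb
      refine (p_LOG P hpr b (hA.1 b hb)).trans ?_
      have hb0 : (0 : ℝ) < b := by exact_mod_cast hA.1 b hb
      have hba : (b : ℝ) ≤ (a : ℝ) ^ 2 := by
        rcases eq_or_ne a b with rfl | hne
        · nlinarith
        · have := p_MXM A hA a ha b hb hne
          have h4 : b ≤ a ^ 2 := by omega
          exact_mod_cast h4
      calc Real.log (b : ℝ) ≤ Real.log ((a : ℝ) ^ 2) := Real.log_le_log hb0 hba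
        _ = 2 * Real.log (a : ℝ) := by rw [Real.log_pow]; norm_num
    have h4 : ∑ b ∈ A, ∑ p ∈ P, (padicValNat p b : ℝ) * Real.log (p : ℝ) ≤
        k * (2 * Real.log (a : ℝ)) := by
      refine (Finset.sum_le_sum h3).trans ?_
      rw [Finset.sum_const, nsmul_eq_mul]
    have h5 : 3 * k / 2 * (X / 8) ≤ k * (2 * Real.log (a : ℝ)) := by
      rw [h2] at h1
      exact h1.trans h4
    have h6 : 3 / 1024 * k ^ 2 ≤ 2 * Real.log (a : ℝ) := by
      have hk0 : 0 < k := by linarith
      refine le_of_mul_le_mul_left ?_ hk0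
      calc k * (3 / 1024 * k ^ 2) = 3 * k / 2 * (X / 8) := by rw [hX]; ring
        _ ≤ _ := h5
    have h7 : k ^ 2 ≤ 700 * Real.log (a : ℝ) := by nlinarith
    exact h7.trans (mul_le_mul_of_nonneg_right (le_max_left _ _) hla0.le)

end PSS
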