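import Pool.Agent.PSS.Targets
import Pool.Agent.SLW.KNN
import Pool.Agent.SLW.KFT
import Pool.Agent.SLW.BDD
import Pool.Agent.SLW.LAP
import Pool.Agent.SLW.MAS
import Pool.Agent.SLW.FE1
import Pool.Agent.SLW.FE2
import Pool.Agent.SLW.FE3
import Pool.Agent.SLW.TAU
import Pool.Agent.SLW.PNT
import Pool.Agent.SLW.PRI

/-!
# PSS: Chebyshev lower bound for primes 3 mod 8
-/

set_option autoImplicit false

namespace PSS

/-- `totient 8 = 4` -/
theorem PRM_.tot8 : Nat.totient 8 = 4 := by decide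

/-- prime number theorem for arithmetic progressions -/
theorem PRM_.pnt : SLW.T_PNT :=
  SLW.p_PNT SLW.p_BDD (SLW.p_LAP SLW.p_BDD)
    (SLW.p_FE3 (SLW.p_FE2 SLW.p_KNN (SLW.p_FE1 SLW.p_KNN SLW.p_KFT)))
    (SLW.p_TAU SLW.p_KNN (SLW.p_MAS SLW.p_KNN))

theorem p_PRM : T_PRM := by
  obtain ⟨X₀, h2, hX⟩ := SLW.p_PRI PRM_.pnt 8 3 (by norm_num) (by norm_num) 2 (by norm_num)
  refine ⟨X₀, by linarith, fun X hX0 => ?_⟩
  have hXX := hX X hX0
  have hX2 : 2 ≤ X := le_trans h2 hX0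
  have hlog : 0 < Real.log X := Real.log_pos (by linarith)
  rw [PRM_.tot8] at hXX
  have hset : (Finset.Icc 1 ⌊2 * X⌋₊).filter
      (fun p : ℕ => p.Prime ∧ X < (p : ℝ) ∧ p ≡ 3 [MOD 8]) =
      (Finset.Icc 1 ⌊2 * X⌋₊).filter (fun p : ℕ => p.Prime ∧ X < (p : ℝ) ∧ p % 8 = 3) := by
    apply Finset.filter_congr
    intro p _
    simp [Nat.ModEq]
  rw [hset] at hXX
  set S := (Finset.Icc 1 ⌊2 * X⌋₊).filter
    (fun p : ℕ => p.Prime ∧ X < (p : ℝ) ∧ p % 8 = 3) with hS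
  have hsum : (S.card : ℝ) * Real.log X ≤ ∑ p ∈ S, Real.log (p : ℝ) := by
    have h := Finset.card_nsmul_le_sum S (fun p : ℕ => Real.log (p : ℝ)) (Real.log X) (by
      intro p hp
      rw [hS, Finset.mem_filter] at hp
      exact Real.log_le_log (by linarith) hp.2.2.1.le)
    rwa [nsmul_eq_mul] at h
  have h3 : 1 / 2 * (2 - 1) * X / (((4 : ℕ) : ℝ) * Real.log X) * Real.log X = X / 8 := by
    push_cast
    field_simp
    ring
  calc X / 8 = 1 / 2 * (2 - 1) * X / (((4 : ℕ) : ℝ) * Real.log X) * Real.log X := h3.symm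
    _ ≤ (S.card : ℝ) * Real.log X := mul_le_mul_of_nonneg_right hXX hlog.le
    _ ≤ _ := hsum

end PSS
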