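import Pool.Agent.PSS.Targets

/-! PSS, block ROL: Rolle with counting (helper19). -/

set_option autoImplicit false

namespace PSS

namespace ROL_

/-- induction form: the new points lie below the maximum of `S` -/
theorem core (f f' : ℝ → ℝ) (hc : ContinuousOn f (Set.Ici 0))
    (hd : ∀ t, 0 < t → HasDerivAt f (f' t) t) :
    ∀ (n : ℕ) (S : Finset ℝ), S.card = n → (∀ s ∈ S, 0 ≤ s ∧ f s = 0) →
      ∃ S' : Finset ℝ, S.card ≤ S'.card + 1 ∧ (∀ s ∈ S', 0 < s ∧ f' s = 0) ∧
        ∀ s ∈ S', ∃ m ∈ S, s < m := by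
  classical
  intro n
  induction n with
  | zero =>
    intro S hS _
    exact ⟨∅, by rw [hS]; exact Nat.zero_le _, by simp, by simp⟩
  | succ n ih =>
    intro S hS hz
    have hne : S.Nonempty := by
      rw [← Finset.card_pos]; omega
    set M := S.max' hne with hM
    have hMS : M ∈ S := S.max'_mem hne
    set T := S.erase M with hT
    have hTc : T.card = n := by rw [hT, Finset.card_erase_of_mem hMS]; omega
    by_cases hTe : T.Nonempty
    · obtain ⟨T', h1, h2, h3⟩ := ih T hTc fun s hs => hz s (Finset.mem_of_mem_erase hs)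
      set N := T.max' hTe with hN
      have hNT : N ∈ T := T.max'_mem hTe
      have hNS : N ∈ S := Finset.mem_of_mem_erase hNT
      have hNM : N < M := lt_of_le_of_ne (S.le_max' N hNS) (Finset.ne_of_mem_erase hNT)
      have hN0 : 0 ≤ N := (hz N hNS).1
      obtain ⟨c, hc1, hc2⟩ := exists_hasDerivAt_eq_zero (f := f) (f' := f') hNM
        (hc.mono fun x hx => hN0.trans hx.1) (by rw [(hz N hNS).2, (hz M hMS).2])
        fun x hx => hd x (hN0.trans_lt hx.1)
      have hcT : c ∉ T' := by
        intro hcT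
        obtain ⟨m, hm, hlt⟩ := h3 c hcT
        have := T.le_max' m hm
        linarith [hc1.1]
      refine ⟨insert c T', ?_, ?_, ?_⟩
      · rw [Finset.card_insert_of_notMem hcT, hS]
        omega
      · intro s hs
        rcases Finset.mem_insert.1 hs with rfl | hs
        · exact ⟨hN0.trans_lt hc1.1, hc2⟩
        · exact h2 s hs
      · intro s hs
        rcases Finset.mem_insert.1 hs with rfl | hs
        · exact ⟨M, hMS, hc1.2⟩
        · obtain ⟨m, hm, hlt⟩ := h3 s hs
          exact ⟨m, Finset.mem_of_mem_erase hm, hlt⟩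
    · rw [Finset.not_nonempty_iff_eq_empty] at hTe
      refine ⟨∅, ?_, by simp, by simp⟩
      rw [hTe, Finset.card_empty] at hTc
      rw [hS, ← hTc]
      simp

end ROL_

theorem p_ROL : T_ROL := by
  intro f f' hc hd S hS
  obtain ⟨S', h1, h2, -⟩ := ROL_.core f f' hc hd S.card S rfl hS
  exact ⟨S', h1, h2⟩

end PSS
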