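import Pool.Agent.PSS.Targets

/-!
# PSS-TAY: Taylor expansion of `hh`
-/

set_option autoImplicit false

namespace PSS

namespace TAY_

lemma hh_nonneg_le (u : ℝ) (hu : 0 ≤ u) : |hh u| ≤ 1 := by
  unfold hh
  have h1 : 0 ≤ √(1 + u) := Real.sqrt_nonneg _
  rw [abs_of_nonneg (by positivity), div_le_one (by positivity)]
  linarith

lemma contDiffOn_hh (n : ℕ) : ContDiffOn ℝ n hh (Set.Icc 0 1) := by
  unfold hh
  refine contDiffOn_const.div ?_ ?_
  · refine contDiffOn_const.add ?_
    refine ContDiffOn.sqrt ?_ ?_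
    · exact contDiffOn_const.add contDiffOn_id
    · intro x hx
      have : 0 ≤ x := hx.1
      positivity
  · intro x hx
    have h1 : 0 ≤ √(1 + x) := Real.sqrt_nonneg _
    positivity

end TAY_

open TAY_

theorem p_TAY : T_TAY := by
  intro r
  rcases r with - | n
  · refine ⟨fun _ => 0, 1, one_pos, fun u hu _ => ?_⟩
    simpa using hh_nonneg_le u hu
  · obtain ⟨C, hC⟩ := exists_taylor_mean_remainder_bound (f := hh) (n := n) zero_le_one
      (by exact_mod_cast contDiffOn_hh (n + 1))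
    refine ⟨fun k => (((k : ℕ).factorial : ℝ)⁻¹) * iteratedDerivWithin (k : ℕ) hh (Set.Icc 0 1) 0,
      |C| + 1, by positivity, fun u hu hu1 => ?_⟩
    have h1 := hC u ⟨hu, hu1⟩
    rw [taylor_within_apply, Real.norm_eq_abs, sub_zero] at h1
    have h2 : ∑ m : Fin (n + 1), (((m : ℕ).factorial : ℝ)⁻¹ *
        iteratedDerivWithin (m : ℕ) hh (Set.Icc 0 1) 0) * u ^ (m : ℕ) =
        ∑ k ∈ Finset.range (n + 1), ((k.factorial : ℝ)⁻¹ * u ^ k) •
          iteratedDerivWithin k hh (Set.Icc 0 1) 0 := by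
      rw [← Fin.sum_univ_eq_sum_range
        (fun k => ((k.factorial : ℝ)⁻¹ * u ^ k) • iteratedDerivWithin k hh (Set.Icc 0 1) 0)]
      refine Finset.sum_congr rfl fun m _ => ?_
      rw [smul_eq_mul]
      ring
    rw [h2]
    refine h1.trans (mul_le_mul_of_nonneg_right ?_ (by positivity))
    have := le_abs_self C
    linarith

end PSS
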