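import Pool.Agent.PSS.Targets

set_option autoImplicit false

/-!
# PSS, job TWO: concentration
-/

namespace PSS

namespace TWO_

theorem sqrt_sub_one {u : ℝ} (hu : 0 ≤ u) : √(1 + u) - 1 = u * hh u := by
  have h1 : √(1 + u) * √(1 + u) = 1 + u := Real.mul_self_sqrt (by linarith)
  have h2 : 0 ≤ √(1 + u) := Real.sqrt_nonneg _
  have h3 : 1 + √(1 + u) ≠ 0 := by linarith
  rw [hh, mul_one_div, eq_div_iff h3]
  nlinarith

theorem sqrt_add {a d : ℝ} (hd : 0 < d) :
    √(a ^ 2 + d ^ 2) - d = d * (√(1 + a ^ 2 * (1 / d ^ 2)) - 1) := by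
  have h1 : a ^ 2 + d ^ 2 = d ^ 2 * (1 + a ^ 2 * (1 / d ^ 2)) := by
    field_simp
    ring
  rw [h1, Real.sqrt_mul (by positivity), Real.sqrt_sq hd.le]
  ring

end TWO_

open TWO_ in
theorem p_TWO (hNZ : T_NZ) (hDET : T_DET) : T_TWO := by
  intro r hr
  obtain ⟨C₀, hC₀, hdet⟩ := hDET r
  refine ⟨C₀ + 1, by linarith, ?_⟩
  intro A R m hA hRA hRc hRm
  by_contra hcon
  rw [not_lt] at hcon
  obtain ⟨S, hS, hSc⟩ := Finset.exists_subset_card_eq hcon
  set C : ℝ := C₀ + 1 with hC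
  have hC1 : 1 ≤ C := by linarith
  have hr0 : (0 : ℝ) < r := by exact_mod_cast hr
  -- enumerate `R` and `S`
  set a : Fin r → ℕ := fun i => R.orderEmbOfFin hRc i with ha
  set d : Fin r → ℕ := fun j => S.orderEmbOfFin hSc j with hd
  have haR : ∀ i, a i ∈ R := fun i => Finset.orderEmbOfFin_mem R hRc i
  have hdS : ∀ j, d j ∈ S := fun j => Finset.orderEmbOfFin_mem S hSc j
  have hainj : Function.Injective a := (R.orderEmbOfFin hRc).injective
  have hdinj : Function.Injective d := (S.orderEmbOfFin hSc).injective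
  have hapos : ∀ i, 0 < a i := fun i => hA.1 _ (hRA (haR i))
  have ham : ∀ i, a i ≤ m := fun i => hRm _ (haR i)
  have hm : 1 ≤ m := (hapos ⟨0, hr⟩).trans_le (ham ⟨0, hr⟩)
  have hm1 : (1 : ℝ) ≤ m := by exact_mod_cast hm
  have hm0 : (0 : ℝ) < m := by linarith
  obtain ⟨D, hD⟩ : ∃ D : ℝ, D = C * (m : ℝ) ^ (1 + 1 / (r : ℝ)) := ⟨_, rfl⟩
  have hdD : ∀ j, D < d j := by
    intro j
    rw [hD]
    exact (Finset.mem_filter.1 (hS (hdS j))).2
  have hdA : ∀ j, d j ∈ A := fun j => (Finset.mem_filter.1 (hS (hdS j))).1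
  have hmD : (m : ℝ) ≤ D := by
    have h1 : (m : ℝ) ≤ (m : ℝ) ^ (1 + 1 / (r : ℝ)) := by
      calc (m : ℝ) = (m : ℝ) ^ (1 : ℝ) := (Real.rpow_one _).symm
        _ ≤ (m : ℝ) ^ (1 + 1 / (r : ℝ)) :=
          Real.rpow_le_rpow_of_exponent_le hm1 (by
            have : 0 ≤ 1 / (r : ℝ) := by positivity
            linarith)
    rw [hD]
    nlinarith
  have hD0 : 0 < D := by linarith
  have hdpos : ∀ j, (0 : ℝ) < d j := fun j => hD0.trans (hdD j)
  have haR' : ∀ i, (0 : ℝ) < a i := fun i => by exact_mod_cast hapos i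
  have ham' : ∀ i, (a i : ℝ) ≤ m := fun i => by exact_mod_cast ham i
  have hne : ∀ i j, a i ≠ d j := by
    intro i j h
    have h1 := hdD j
    have h2 := ham' i
    rw [h] at h2
    linarith
  -- the square roots
  have hz : ∀ i j, ∃ z : ℕ, √((a i : ℝ) ^ 2 + (d j : ℝ) ^ 2) = z := by
    intro i j
    obtain ⟨z, hz⟩ := hA.2 _ (hRA (haR i)) _ (hdA j) (hne i j)
    refine ⟨z, ?_⟩
    have h1 : (a i : ℝ) ^ 2 + (d j : ℝ) ^ 2 = (z : ℝ) * z := by exact_mod_cast hz
    rw [h1, Real.sqrt_mul_self (Nat.cast_nonneg z)]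
  choose z hz using hz
  set W : Matrix (Fin r) (Fin r) ℤ := Matrix.of fun i j => (z i j : ℤ) - d j with hW
  set w : Matrix (Fin r) (Fin r) ℝ :=
    Matrix.of fun i j => √((a i : ℝ) ^ 2 + (d j : ℝ) ^ 2) - d j with hw
  have hWw : ((W.det : ℤ) : ℝ) = w.det := by
    have h1 := (Int.castRingHom ℝ).map_det W
    rw [eq_intCast] at h1
    rw [h1]
    congr 1
    ext i j
    simp [hW, hw, hz i j]
  -- the determinant is not zero
  have hw1 : w = Matrix.of fun i j => (d j : ℝ) *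
      (Matrix.of fun i j => √(1 + (a i : ℝ) ^ 2 * (1 / (d j : ℝ) ^ 2)) - 1) i j := by
    ext i j
    simp only [hw, Matrix.of_apply]
    exact sqrt_add (hdpos j)
  have hnz : w.det ≠ 0 := by
    rw [hw1, Matrix.det_mul_row]
    refine mul_ne_zero (Finset.prod_ne_zero_iff.2 fun j _ => (hdpos j).ne') ?_
    refine hNZ r (fun i => (a i : ℝ) ^ 2) (fun j => 1 / (d j : ℝ) ^ 2) ?_ ?_ ?_ ?_
    · intro i i' h
      apply hainj
      have h1 : (a i : ℝ) = a i' := (pow_left_inj₀ (haR' i).le (haR' i').le two_ne_zero).1 h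
      exact_mod_cast h1
    · intro j j' h
      apply hdinj
      simp only [one_div] at h
      have h0 := inv_injective h
      have h1 : (d j : ℝ) = d j' := (pow_left_inj₀ (hdpos j).le (hdpos j').le two_ne_zero).1 h0
      exact_mod_cast h1
    · intro i
      exact pow_pos (haR' i) 2
    · intro j
      exact div_pos one_pos (pow_pos (hdpos j) 2)
  -- the determinant is small
  set l : ℝ := (m : ℝ) ^ 2 / D ^ 2 with hl
  set x : Fin r → ℝ := fun i => (a i : ℝ) ^ 2 / (m : ℝ) ^ 2 with hx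
  set t : Fin r → ℝ := fun j => D ^ 2 / (d j : ℝ) ^ 2 with ht
  have hw2 : w = Matrix.of fun i j => (a i : ℝ) ^ 2 *
      (Matrix.of fun i j => (1 / (d j : ℝ)) *
        (Matrix.of fun i j => hh (l * x i * t j)) i j) i j := by
    ext i j
    simp only [hw, Matrix.of_apply]
    rw [sqrt_add (hdpos j)]
    have h0 : (0 : ℝ) ≤ (a i : ℝ) ^ 2 * (1 / (d j : ℝ) ^ 2) := by positivity
    rw [sqrt_sub_one h0]
    have h1 : l * x i * t j = (a i : ℝ) ^ 2 * (1 / (d j : ℝ) ^ 2) := by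
      have := hdpos j
      simp only [hl, hx, ht]
      field_simp
    rw [h1]
    have := hdpos j
    field_simp
  have hl0 : 0 ≤ l := by positivity
  have hl1 : l ≤ 1 := by
    rw [hl, div_le_one (by positivity)]
    exact pow_le_pow_left₀ hm0.le hmD 2
  have hx01 : ∀ i, 0 ≤ x i ∧ x i ≤ 1 := by
    intro i
    refine ⟨by positivity, ?_⟩
    simp only [hx]
    rw [div_le_one (by positivity)]
    exact pow_le_pow_left₀ (haR' i).le (ham' i) 2
  have ht01 : ∀ j, 0 ≤ t j ∧ t j ≤ 1 := by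
    intro j
    refine ⟨by positivity, ?_⟩
    simp only [ht]
    rw [div_le_one (by have := hdpos j; positivity)]
    exact pow_le_pow_left₀ hD0.le (hdD j).le 2
  have hsmall := hdet l x t hl0 hl1 hx01 ht01
  have hbound : |w.det| < 1 := by
    rw [hw2, Matrix.det_mul_column, Matrix.det_mul_row, abs_mul, abs_mul]
    have p1 : |∏ i, (a i : ℝ) ^ 2| ≤ ((m : ℝ) ^ 2) ^ r := by
      rw [abs_of_nonneg (Finset.prod_nonneg fun i _ => by positivity)]
      calc ∏ i, (a i : ℝ) ^ 2 ≤ ∏ _i : Fin r, (m : ℝ) ^ 2 :=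
            Finset.prod_le_prod (fun i _ => by positivity)
              fun i _ => pow_le_pow_left₀ (haR' i).le (ham' i) 2
        _ = ((m : ℝ) ^ 2) ^ r := by simp
    have p2 : |∏ j, 1 / (d j : ℝ)| ≤ (1 / D) ^ r := by
      rw [abs_of_nonneg (Finset.prod_nonneg fun j _ => by positivity)]
      calc ∏ j, 1 / (d j : ℝ) ≤ ∏ _j : Fin r, 1 / D :=
            Finset.prod_le_prod (fun j _ => by positivity)
              fun j _ => one_div_le_one_div_of_le hD0 (hdD j).le
        _ = (1 / D) ^ r := by simp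
    have p3 : l ^ (r * (r - 1) / 2) = ((m : ℝ) / D) ^ (r * (r - 1)) := by
      have h1 : l = ((m : ℝ) / D) ^ 2 := by rw [hl, div_pow]
      rw [h1, ← pow_mul]
      congr 1
      exact Nat.mul_div_cancel' (Nat.even_mul_pred_self r).two_dvd
    have hDr : D ^ (r ^ 2) = C ^ (r ^ 2) * (m : ℝ) ^ (r ^ 2 + r) := by
      rw [hD, mul_pow, ← Real.rpow_mul_natCast hm0.le]
      congr 1
      rw [← Real.rpow_natCast]
      congr 1
      push_cast
      field_simp
    have h4 : |∏ i, (a i : ℝ) ^ 2| * (|∏ j, 1 / (d j : ℝ)| *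
        |(Matrix.of fun i j => hh (l * x i * t j)).det|) ≤
        ((m : ℝ) ^ 2) ^ r * ((1 / D) ^ r * (C₀ * ((m : ℝ) / D) ^ (r * (r - 1)))) := by
      rw [← p3]
      gcongr
    refine h4.trans_lt ?_
    have h5 : ((m : ℝ) ^ 2) ^ r * ((1 / D) ^ r * (C₀ * ((m : ℝ) / D) ^ (r * (r - 1)))) =
        C₀ / C ^ (r ^ 2) := by
      have e1 : r + r * (r - 1) = r ^ 2 := by
        obtain ⟨k, rfl⟩ : ∃ k, r = k + 1 := ⟨r - 1, by omega⟩
        rw [Nat.add_sub_cancel]
        ring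
      have e2 : 2 * r + r * (r - 1) = r ^ 2 + r := by omega
      have e3 : ((m : ℝ) ^ 2) ^ r * ((1 / D) ^ r * (C₀ * ((m : ℝ) / D) ^ (r * (r - 1)))) =
          C₀ * (m : ℝ) ^ (2 * r + r * (r - 1)) / D ^ (r + r * (r - 1)) := by
        rw [div_pow, div_pow, one_pow, ← pow_mul, pow_add, pow_add]
        have := hD0.ne'
        field_simp
      rw [e3, e1, e2, hDr]
      have := (pow_pos hm0 (r ^ 2 + r)).ne'
      have hCp : C ^ (r ^ 2) ≠ 0 := (pow_pos (by linarith) _).ne'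
      field_simp
    rw [h5, div_lt_one (pow_pos (by linarith) _)]
    calc C₀ < C := by linarith
      _ = C ^ 1 := (pow_one _).symm
      _ ≤ C ^ (r ^ 2) := pow_le_pow_right₀ hC1 (Nat.one_le_pow _ _ hr)
  -- the determinant is an integer
  have h1 : |((W.det : ℤ) : ℝ)| < 1 := by rw [hWw]; exact hbound
  have h2 : |W.det| < 1 := by exact_mod_cast h1
  have h3 : W.det = 0 := Int.abs_lt_one_iff.1 h2
  apply hnz
  rw [← hWw, h3, Int.cast_zero]

end PSS
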