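import Pool.Agent.PSS.Targets

/-!
# PSS: block VAL, elements with a given valuation (MP_a81a37_nt), helper42
-/

set_option autoImplicit false

namespace PSS

namespace VAL_

/-- the part of `a` prime to `p` -/
theorem part_prime {p : ℕ} (hp : p.Prime) {a v : ℕ} (ha : 0 < a) (hv : padicValNat p a = v) :
    ¬ p ∣ a / p ^ v ∧ a = p ^ v * (a / p ^ v) := by
  have h1 : a.factorization p = v := by rw [Nat.factorization_def a hp, hv]
  have h2 := Nat.not_dvd_ordCompl (n := a) hp ha.ne'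
  rw [h1] at h2
  refine ⟨h2, ?_⟩
  have h3 : p ^ v ∣ a := by
    have := Nat.ordProj_dvd a p
    rwa [h1] at this
  exact (Nat.mul_div_cancel' h3).symm

/-- dividing a sum of two squares by a common square -/
theorem sq_div {q b b' z : ℕ} (hq : 0 < q) (h : (q * b) ^ 2 + (q * b') ^ 2 = z * z) :
    ∃ w : ℕ, b ^ 2 + b' ^ 2 = w ^ 2 := by
  have h1 : q ^ 2 ∣ z ^ 2 := by
    refine ⟨b ^ 2 + b' ^ 2, ?_⟩
    rw [pow_two z, ← h]
    ring
  obtain ⟨w, rfl⟩ := (Nat.pow_dvd_pow_iff two_ne_zero).1 h1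
  refine ⟨w, ?_⟩
  have h2 : q ^ 2 * (b ^ 2 + b' ^ 2) = q ^ 2 * w ^ 2 := by
    calc q ^ 2 * (b ^ 2 + b' ^ 2) = (q * b) ^ 2 + (q * b') ^ 2 := by ring
      _ = q * w * (q * w) := h
      _ = q ^ 2 * w ^ 2 := by ring
  exact Nat.eq_of_mul_eq_mul_left (by positivity) h2

end VAL_

open VAL_ in
theorem p_VAL (hCLQ : T_CLQ) : T_VAL := by
  classical
  intro A hA p hp hp8 v
  have : Fact p.Prime := ⟨hp⟩
  have hp2 : p ≠ 2 := by
    rintro rfl
    omega
  have h2 : ¬ IsSquare (2 : ZMod p) := by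
    rw [ZMod.exists_sq_eq_two_iff hp2]
    omega
  set F : Finset ℕ := A.filter (fun a => padicValNat p a = v) with hF
  have hFa : ∀ a ∈ F, 0 < a ∧ ¬ p ∣ a / p ^ v ∧ a = p ^ v * (a / p ^ v) := by
    intro a ha
    rw [hF, Finset.mem_filter] at ha
    exact ⟨hA.1 a ha.1, part_prime hp (hA.1 a ha.1) ha.2⟩
  set g : ℕ → ZMod p := fun a => ((a / p ^ v : ℕ) : ZMod p) ^ 2 with hg
  have hpv : 0 < p ^ v := pow_pos hp.pos _
  -- sums of two different elements
  have hsum : ∀ a ∈ F, ∀ a' ∈ F, a ≠ a' → IsSquare (g a + g a') := by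
    intro a ha a' ha' hne
    obtain ⟨z, hz⟩ := hA.2 a (Finset.mem_filter.1 ha).1 a' (Finset.mem_filter.1 ha').1 hne
    rw [(hFa a ha).2.2, (hFa a' ha').2.2] at hz
    obtain ⟨w, hw⟩ := sq_div hpv hz
    refine ⟨(w : ZMod p), ?_⟩
    rw [← pow_two, ← Nat.cast_pow, ← hw, hg]
    push_cast
    rfl
  have hne0 : ∀ a ∈ F, ((a / p ^ v : ℕ) : ZMod p) ≠ 0 := by
    intro a ha h0
    rw [ZMod.natCast_eq_zero_iff] at h0
    exact (hFa a ha).2.1 h0
  have hinj : ∀ a ∈ F, ∀ a' ∈ F, g a = g a' → a = a' := by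
    intro a ha a' ha' he
    by_contra hne
    obtain ⟨w, hw⟩ := hsum a ha a' ha' hne
    rw [← he] at hw
    apply h2
    refine ⟨w / ((a / p ^ v : ℕ) : ZMod p), ?_⟩
    have h0 := hne0 a ha
    have h3 : w / ((a / p ^ v : ℕ) : ZMod p) * (w / ((a / p ^ v : ℕ) : ZMod p)) =
        (w * w) / ((a / p ^ v : ℕ) : ZMod p) ^ 2 := by
      rw [div_mul_div_comm, pow_two]
    rw [h3, ← hw, eq_div_iff (pow_ne_zero 2 h0)]
    simp only [hg]
    ring
  set S : Finset (ZMod p) := F.image g with hS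
  have hcard : S.card = F.card := Finset.card_image_of_injOn hinj
  by_cases h3 : 3 ≤ F.card
  · have h4 := hCLQ p hp2 h2 S ?_ ?_ (by rw [hcard]; exact h3)
    · rw [hcard] at h4
      have h5 : (F.card - 3) ^ 2 ≤ p := by omega
      have h6 : ((F.card : ℝ) - 3) ^ 2 ≤ (p : ℝ) := by
        have h7 : (((F.card - 3 : ℕ) : ℝ)) ^ 2 ≤ (p : ℝ) := by exact_mod_cast h5
        rwa [Nat.cast_sub h3] at h7
      have h8 : (F.card : ℝ) - 3 ≤ √(p : ℝ) := Real.le_sqrt_of_sq_le h6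
      linarith
    · intro s hs
      rw [hS, Finset.mem_image] at hs
      obtain ⟨a, ha, rfl⟩ := hs
      exact ⟨pow_ne_zero 2 (hne0 a ha), ⟨_, pow_two _⟩⟩
    · intro s hs t ht hst
      rw [hS, Finset.mem_image] at hs ht
      obtain ⟨a, ha, rfl⟩ := hs
      obtain ⟨a', ha', rfl⟩ := ht
      exact hsum a ha a' ha' (fun h => hst (by rw [h]))
  · have h4 : (F.card : ℝ) ≤ 3 := by
      have : F.card ≤ 3 := by omega
      exact_mod_cast this
    have h5 := Real.sqrt_nonneg (p : ℝ)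
    linarith

end PSS
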