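import Mathlib

/-!
# PSS: size and concentration of pairwise-sum-square sets (MP_a81a37_nt), helper38

Blueprint: ideas row 4461 of the team database.
-/

set_option autoImplicit false

namespace PSS

/-- pairwise-sum-square set of positive integers -/
def PS (A : Finset ℕ) : Prop :=
  (∀ a ∈ A, 0 < a) ∧ ∀ a ∈ A, ∀ b ∈ A, a ≠ b → IsSquare (a ^ 2 + b ^ 2)

/-- `(sqrt (1+u) - 1)/u` -/
noncomputable def hh (u : ℝ) : ℝ := 1 / (1 + √(1 + u))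

/-- CLQ: if 2 is a non-residue mod p and S is a set of nonzero squares with all sums of two
different elements squares (or 0) then n + (n-3)^2 <= p. -/
def T_CLQ : Prop := ∀ (p : ℕ) [Fact p.Prime], p ≠ 2 → ¬ IsSquare (2 : ZMod p) →
  ∀ S : Finset (ZMod p), (∀ s ∈ S, s ≠ 0 ∧ IsSquare s) →
    (∀ s ∈ S, ∀ t ∈ S, s ≠ t → IsSquare (s + t)) → 3 ≤ S.card →
    S.card + (S.card - 3) ^ 2 ≤ p

/-- VAL (from CLQ): at most `sqrt p + 3` elements have a given p-adic valuation -/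
def T_VAL : Prop := ∀ A : Finset ℕ, PS A → ∀ p : ℕ, p.Prime → p % 8 = 3 → ∀ v : ℕ,
  ((A.filter (fun a => padicValNat p a = v)).card : ℝ) ≤ √(p : ℝ) + 3

/-- FIB: fibres of size <= T force a large sum -/
def T_FIB : Prop := ∀ (A : Finset ℕ) (f : ℕ → ℕ) (T : ℝ), 0 < T →
  (∀ v, ((A.filter (fun a => f a = v)).card : ℝ) ≤ T) →
  (A.card : ℝ) ^ 2 / (2 * T) - (A.card : ℝ) / 2 ≤ ∑ a ∈ A, (f a : ℝ)

/-- PRM: Chebyshev lower bound for primes 3 mod 8 (from SSL.p_PNTAP, SLW.p_PRI) -/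
def T_PRM : Prop := ∃ X₀ : ℝ, 1 ≤ X₀ ∧ ∀ X : ℝ, X₀ ≤ X →
  X / 8 ≤ ∑ p ∈ (Finset.Icc 1 ⌊2 * X⌋₊).filter
    (fun p : ℕ => p.Prime ∧ X < (p : ℝ) ∧ p % 8 = 3), Real.log (p : ℝ)

/-- LOG: sum of v_p(a) log p over a finite set of primes -/
def T_LOG : Prop := ∀ (P : Finset ℕ), (∀ p ∈ P, p.Prime) → ∀ a : ℕ, 0 < a →
  ∑ p ∈ P, (padicValNat p a : ℝ) * Real.log (p : ℝ) ≤ Real.log (a : ℝ)

/-- MXM: any other element is less than half of the square of a -/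
def T_MXM : Prop := ∀ A : Finset ℕ, PS A → ∀ a ∈ A, ∀ b ∈ A, a ≠ b → 2 * b < a ^ 2

/-- ONE (from VAL, FIB, PRM, LOG, MXM) -/
def T_ONE : Prop := ∃ C : ℝ, 0 < C ∧ ∀ A : Finset ℕ, PS A → 2 ≤ A.card →
  ∀ a ∈ A, (A.card : ℝ) ^ 2 ≤ C * Real.log (a : ℝ)

/-- ROL: Rolle with counting -/
def T_ROL : Prop := ∀ (f f' : ℝ → ℝ), ContinuousOn f (Set.Ici 0) →
  (∀ t, 0 < t → HasDerivAt f (f' t) t) → ∀ S : Finset ℝ, (∀ s ∈ S, 0 ≤ s ∧ f s = 0) →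
  ∃ S' : Finset ℝ, S.card ≤ S'.card + 1 ∧ ∀ s ∈ S', 0 < s ∧ f' s = 0

/-- CHB (from ROL): Chebyshev property of powers with negative exponent -/
def T_CHB : Prop := ∀ (n : ℕ) (al : ℝ), al < 0 → ∀ (g c : Fin (n + 1) → ℝ),
  Function.Injective g → (∀ i, 0 < g i) → c ≠ 0 → ∀ S : Finset ℝ,
  (∀ s ∈ S, 0 < s ∧ ∑ i, c i * (s + g i) ^ al = 0) → S.card ≤ n

/-- NZ (from ROL, CHB): the matrix is nonsingular -/
def T_NZ : Prop := ∀ (r : ℕ) (x t : Fin r → ℝ), Function.Injective x → Function.Injective t →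
  (∀ i, 0 < x i) → (∀ i, 0 < t i) →
  Matrix.det (Matrix.of fun i j => √(1 + x i * t j) - 1) ≠ 0

/-- TAY: Taylor expansion of hh at 0 on [0,1] -/
def T_TAY : Prop := ∀ r : ℕ, ∃ (q : Fin r → ℝ) (C : ℝ), 0 < C ∧ ∀ u : ℝ, 0 ≤ u → u ≤ 1 →
  |hh u - ∑ m : Fin r, q m * u ^ (m : ℕ)| ≤ C * u ^ r

/-- DET (from TAY): the determinant is small -/
def T_DET : Prop := ∀ r : ℕ, ∃ C : ℝ, 0 < C ∧ ∀ (l : ℝ) (x t : Fin r → ℝ), 0 ≤ l → l ≤ 1 →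
  (∀ i, 0 ≤ x i ∧ x i ≤ 1) → (∀ i, 0 ≤ t i ∧ t i ≤ 1) →
  |Matrix.det (Matrix.of fun i j => hh (l * x i * t j))| ≤ C * l ^ (r * (r - 1) / 2)

/-- TWO (from NZ, DET): concentration -/
def T_TWO : Prop := ∀ r : ℕ, 1 ≤ r → ∃ C : ℝ, 0 < C ∧ ∀ (A R : Finset ℕ) (m : ℕ), PS A →
  R ⊆ A → R.card = r → (∀ a ∈ R, a ≤ m) →
  (A.filter (fun d : ℕ => C * (m : ℝ) ^ (1 + 1 / (r : ℝ)) < (d : ℝ))).card < r

end PSS
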